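import Pool.Agent.H925Z.Main

/-!
Almost `Δ`-regressive colourings have infinite monochromatic sets, indeed of every size below `κ`.

Idea: an Erdős-Rado tree of types attaches to each `x` points `y_α` with `Δ(y_α, x) = α` that are
end-homogeneous; the Devlin-Shelah argument at the least `ν` with `2 ^ ν > 2 ^ μ` gives an `x` for
which the set of stages `α` is stationary in `ν`, and the pressing-down argument finishes.
-/

set_option autoImplicit false

universe u

namespace Pool.Agent.Results.MP_e5b57d_lc.AnswerYes

open Cardinal Set Pool.Agent.H925Z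

theorem result (κ : Cardinal.{u}) (hκ : ℵ₀ < κ)
    (hexp : ∀ μ < κ, (2 : Cardinal.{u}) ^ μ < 2 ^ κ)
    (c : Sym2 (Seq κ) → Iio κ.ord) (hc : AlmostRegressive c) (lam : Cardinal.{u}) (hlam : lam < κ) :
    ∃ Y : Set (Seq κ), Monochromatic c Y ∧ Y.Infinite ∧ Cardinal.lift.{u + 1} lam < #Y :=
  almost_mono hκ hexp c hc lam hlam

end Pool.Agent.Results.MP_e5b57d_lc.AnswerYes
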